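import Mathlib
import Pool.Agent.H537R3.Iso.Defs
import Pool.Agent.H537R3.Iso.Final

set_option autoImplicit false

/-!
# The isoperimetric inequality fails for surfaces of small mean curvature

Let `a ≠ 0` and let `N` be hyperbolic three-space of curvature `-a²`, a Hadamard manifold.  There
are compact embedded annuli `Ω` in `N` with `|H| = |a|` everywhere for which the quotient
`A / L²` is as large as one wants; in particular `4 π A ≤ L²` fails.  The annuli are compact
pieces of the rotational surfaces of constant mean curvature `|a|` (Bryant's catenoid cousins).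
Intrinsically such a piece is a catenoid on which the angle variable only runs through
`[0, 2πμ]`, and `A / L²` tends to infinity when the parameter `μ` tends to `0`.
-/

namespace Pool.Agent.Results.MP_ca1eac_gt.NoIsoperimetric

open Set Pool.Agent.H537R3.Iso

/-- **Theorem (disproof of Q1, for every `a ≠ 0`).**  For every real `a ≠ 0` and every constant
`C` there are a Riemannian metric `g` on `ℝ³` making it a Hadamard manifold with all sectional
curvatures equal to `-a²`, and a compact annulus `[t₁, t₂] × (ℝ / 2πℤ)` smoothly embedded in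
`(ℝ³, g)` by `F`, whose mean curvature `H` satisfies `|H| = |a|` at every point, and whose area `A`
and total boundary length `L` satisfy `A > C L²`.  With `C = 1 / (4π)` this gives `4πA > L²`. -/
theorem result (a : ℝ) (ha : a ≠ 0) (C : ℝ) :
    ∃ (g : ℝ × ℝ × ℝ → LinearMap.BilinForm ℝ (ℝ × ℝ × ℝ)) (F : ℝ → ℝ → ℝ × ℝ × ℝ) (t₁ t₂ : ℝ),
      IsHadamard g (-a ^ 2) ∧
      (∀ p X Y : ℝ × ℝ × ℝ, LinearIndependent ℝ ![X, Y] → secCurv g p X Y = -a ^ 2) ∧
      IsEmbeddedAnnulus F t₁ t₂ ∧
      (∀ t ∈ Icc t₁ t₂, ∀ θ : ℝ, (∃ ν, IsUnitNormal g F t θ ν) ∧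
        ∀ ν, IsUnitNormal g F t θ ν → |meanCurvature g F t θ ν| = |a|) ∧
      C * boundaryLength g F t₁ t₂ ^ 2 < area g F t₁ t₂ :=
  Pool.Agent.H537R3.Iso.main a ha C

end Pool.Agent.Results.MP_ca1eac_gt.NoIsoperimetric
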